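import Pool.Agent.Helper91.Q1

/-!
The first question of MP_9fec82_nt: the congruence modulo `p^4` for the truncated series
with summand `(42k+5) * binom(2k,k)^3 / 4096^k`, cut off at `(p^a-1)/2`, for every prime
`p > 3` and every `a ≥ 1`.  The congruence of two rationals modulo `p^4` is written out: the
denominator of their difference divided by `p^4` is not divisible by `p`.
-/

set_option autoImplicit false

namespace Pool.Agent.Results.MP_9fec82_nt.Q1

open Finset

theorem result (p : ℕ) (hp : p.Prime) (h3 : 3 < p) (a : ℕ) (ha : 1 ≤ a) :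
    ¬ p ∣ (((∑ k ∈ range ((p ^ a - 1) / 2 + 1),
          (42 * (k : ℚ) + 5) * ((2 * k).choose k : ℚ) ^ 3 / 4096 ^ k) / (p : ℚ) ^ a
        - (jacobiSym (-1) (p ^ a) : ℚ) *
            (5 - 3 * (p : ℚ) / 4 * ∑ j ∈ Icc 1 (p - 1), 1 / (j : ℚ)))
      / (p : ℚ) ^ 4).den :=
  Pool.Agent.Helper91.den_of_Dv hp (Pool.Agent.Helper91.Q1_main p hp h3 a ha)

end Pool.Agent.Results.MP_9fec82_nt.Q1
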