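import Pool.Agent.Helper91.EulerDef
import Pool.Agent.Helper91.Q2

/-!
The second question of MP_9fec82_nt: the three congruences modulo `p^4`, for every prime
`p > 3`.  The congruence of two rationals modulo `p^4` is written out: the denominator of
their difference divided by `p^4` is not divisible by `p`.  The Euler numbers are defined by
their exponential generating function in `Pool.Agent.Helper91.EulerDef`.
-/

set_option autoImplicit false

namespace Pool.Agent.Results.MP_9fec82_nt.Q2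

open Finset Pool.Agent.Helper91

theorem result (p : ℕ) (hp : p.Prime) (h3 : 3 < p) :
    (¬ p ∣ (((∑ k ∈ range p, (6 * (k : ℚ) + 1) * ((2 * k).choose k : ℚ) ^ 3 / 256 ^ k)
        - ((jacobiSym (-1) p : ℚ) * p - eulerNum (p - 3) * (p : ℚ) ^ 3))
      / (p : ℚ) ^ 4).den) ∧
    (¬ p ∣ (((∑ k ∈ range ((p - 1) / 2 + 1),
            (6 * (k : ℚ) + 1) * ((2 * k).choose k : ℚ) ^ 3 / (-512) ^ k)
        - ((jacobiSym (-2) p : ℚ) * p
            + (jacobiSym 2 p : ℚ) * (eulerNum (p - 3) / 4) * (p : ℚ) ^ 3))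
      / (p : ℚ) ^ 4).den) ∧
    (¬ p ∣ (((∑ k ∈ range p, (42 * (k : ℚ) + 5) * ((2 * k).choose k : ℚ) ^ 3 / 4096 ^ k)
        - (5 * (jacobiSym (-1) p : ℚ) * p - eulerNum (p - 3) * (p : ℚ) ^ 3))
      / (p : ℚ) ^ 4).den) :=
  ⟨den_of_Dv hp (Q2_first p hp h3), den_of_Dv hp (Q2_second p hp h3),
    den_of_Dv hp (Q2_third p hp h3)⟩

end Pool.Agent.Results.MP_9fec82_nt.Q2
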